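import Pool.Agent.Work.MP_497bf6_gt.Dat.L0
import Pool.Agent.Work.MP_497bf6_gt.Dat.L1
import Pool.Agent.Work.MP_497bf6_gt.Dat.L2
import Pool.Agent.Work.MP_497bf6_gt.Dat.L3
import Pool.Agent.Work.MP_497bf6_gt.Dat.L4
import Pool.Agent.Work.MP_497bf6_gt.Dat.L5
import Pool.Agent.Work.MP_497bf6_gt.Dat.L6
import Pool.Agent.Work.MP_497bf6_gt.Dat.L7
import Pool.Agent.Work.MP_497bf6_gt.Dat.L8
import Pool.Agent.Work.MP_497bf6_gt.Dat.L9
import Pool.Agent.Work.MP_497bf6_gt.Dat.L10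
import Pool.Agent.Work.MP_497bf6_gt.Dat.L11
import Pool.Agent.Work.MP_497bf6_gt.Dat.L12
import Pool.Agent.Work.MP_497bf6_gt.Dat.L13
import Pool.Agent.Work.MP_497bf6_gt.Dat.L14
import Pool.Agent.Work.MP_497bf6_gt.Dat.L15

namespace Pool.Agent.IvT

noncomputable def bAll : TT := (.nd (nat_lit 477) (.nd (nat_lit 238) (.nd (nat_lit 119) (.nd (nat_lit 59) (.nd (nat_lit 29) (.nd (nat_lit 14) (.nd (nat_lit 7) (.nd (nat_lit 3) (.nd (nat_lit 1) (.lf b0) (.nd (nat_lit 2) (.lf b1) (.lf b2))) (.nd (nat_lit 5) (.nd (nat_lit 4) (.lf b3) (.lf b4)) (.nd (nat_lit 6) (.lf b5) (.lf b6)))) (.nd (nat_lit 10) (.nd (nat_lit 8) (.lf b7) (.nd (nat_lit 9) (.lf b8) (.lf b9))) (.nd (nat_lit 12) (.nd (nat_lit 11) (.lf b10) (.lf b11)) (.nd (nat_lit 13) (.lf b12) (.lf b13))))) (.nd (nat_lit 21) (.nd (nat_lit 17) (.nd (nat_lit 15) (.lf b14) (.nd (nat_lit 16) (.lf b15) (.lf b16))) (.nd (nat_lit 19) (.nd (nat_lit 18)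 (.lf b17) (.lf b18)) (.nd (nat_lit 20) (.lf b19) (.lf b20)))) (.nd (nat_lit 25) (.nd (nat_lit 23) (.nd (nat_lit 22) (.lf b21) (.lf b22)) (.nd (nat_lit 24) (.lf b23) (.lf b24))) (.nd (nat_lit 27) (.nd (nat_lit 26) (.lf b25) (.lf b26)) (.nd (nat_lit 28) (.lf b27) (.lf b28)))))) (.nd (nat_lit 44) (.nd (nat_lit 36) (.nd (nat_lit 32) (.nd (nat_lit 30) (.lf b29) (.nd (nat_lit 31) (.lf b30) (.lf b31))) (.nd (nat_lit 34) (.nd (nat_lit 33) (.lf b32) (.lf b33)) (.nd (nat_lit 35) (.lf b34) (.lf b35)))) (.nd (nat_lit 40) (.nd (nat_lit 38) (.nd (nat_lit 37) (.lf b36) (.lf b37)) (.nd (nat_lit 39) (.lf b38) (.lf b39))) (.nd (nat_lit 42) (.nd (nat_lit 41) (.lf b40) (.lf b41)) (.nd (nat_lit 43) (.lf b42) (.lf b43))))) (.nd (nat_lit 51) (.nd (nat_lit 47) (.nd (nat_lit 45) (.lf b44) (.nd (nat_lit 46) (.lf b45) (.lf b46))) (.nd (nat_lit 49) (.nd (nat_lit 48) (.lf b47) (.lf b48)) (.nd (nat_lit 50) (.lf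 b49) (.lf b50)))) (.nd (nat_lit 55) (.nd (nat_lit 53) (.nd (nat_lit 52) (.lf b51) (.lf b52)) (.nd (nat_lit 54) (.lf b53) (.lf b54))) (.nd (nat_lit 57) (.nd (nat_lit 56) (.lf b55) (.lf b56)) (.nd (nat_lit 58) (.lf b57) (.lf b58))))))) (.nd (nat_lit 89) (.nd (nat_lit 74) (.nd (nat_lit 66) (.nd (nat_lit 62) (.nd (nat_lit 60) (.lf b59) (.nd (nat_lit 61) (.lf b60) (.lf b61))) (.nd (nat_lit 64) (.nd (nat_lit 63) (.lf b62) (.lf b63)) (.nd (nat_lit 65) (.lf b64) (.lf b65)))) (.nd (nat_lit 70) (.nd (nat_lit 68) (.nd (nat_lit 67) (.lf b66) (.lf b67)) (.nd (nat_lit 69) (.lf b68) (.lf b69))) (.nd (nat_lit 72) (.nd (nat_lit 71) (.lf b70) (.lf b71)) (.nd (nat_lit 73) (.lf b72) (.lf b73))))) (.nd (nat_lit 81) (.nd (nat_lit 77) (.nd (nat_lit 75) (.lf b74) (.nd (nat_lit 76) (.lf b75) (.lf b76))) (.nd (nat_lit 79) (.nd (nat_lit 78) (.lf b77) (.lf b78)) (.nd (nat_lit 80) (.lf b79) (.lf b80)))) (.nd (nat_lit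 85) (.nd (nat_lit 83) (.nd (nat_lit 82) (.lf b81) (.lf b82)) (.nd (nat_lit 84) (.lf b83) (.lf b84))) (.nd (nat_lit 87) (.nd (nat_lit 86) (.lf b85) (.lf b86)) (.nd (nat_lit 88) (.lf b87) (.lf b88)))))) (.nd (nat_lit 104) (.nd (nat_lit 96) (.nd (nat_lit 92) (.nd (nat_lit 90) (.lf b89) (.nd (nat_lit 91) (.lf b90) (.lf b91))) (.nd (nat_lit 94) (.nd (nat_lit 93) (.lf b92) (.lf b93)) (.nd (nat_lit 95) (.lf b94) (.lf b95)))) (.nd (nat_lit 100) (.nd (nat_lit 98) (.nd (nat_lit 97) (.lf b96) (.lf b97)) (.nd (nat_lit 99) (.lf b98) (.lf b99))) (.nd (nat_lit 102) (.nd (nat_lit 101) (.lf b100) (.lf b101)) (.nd (nat_lit 103) (.lf b102) (.lf b103))))) (.nd (nat_lit 111) (.nd (nat_lit 107) (.nd (nat_lit 105) (.lf b104) (.nd (nat_lit 106) (.lf b105) (.lf b106))) (.nd (nat_lit 109) (.nd (nat_lit 108) (.lf b107) (.lf b108)) (.nd (nat_lit 110) (.lf b109) (.lf b110)))) (.nd (nat_lit 115) (.nd (nat_lit 113)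 (.nd (nat_lit 112) (.lf b111) (.lf b112)) (.nd (nat_lit 114) (.lf b113) (.lf b114))) (.nd (nat_lit 117) (.nd (nat_lit 116) (.lf b115) (.lf b116)) (.nd (nat_lit 118) (.lf b117) (.lf b118)))))))) (.nd (nat_lit 178) (.nd (nat_lit 148) (.nd (nat_lit 133) (.nd (nat_lit 126) (.nd (nat_lit 122) (.nd (nat_lit 120) (.lf b119) (.nd (nat_lit 121) (.lf b120) (.lf b121))) (.nd (nat_lit 124) (.nd (nat_lit 123) (.lf b122) (.lf b123)) (.nd (nat_lit 125) (.lf b124) (.lf b125)))) (.nd (nat_lit 129) (.nd (nat_lit 127) (.lf b126) (.nd (nat_lit 128) (.lf b127) (.lf b128))) (.nd (nat_lit 131) (.nd (nat_lit 130) (.lf b129) (.lf b130)) (.nd (nat_lit 132) (.lf b131) (.lf b132))))) (.nd (nat_lit 140) (.nd (nat_lit 136) (.nd (nat_lit 134) (.lf b133) (.nd (nat_lit 135) (.lf b134) (.lf b135))) (.nd (nat_lit 138) (.nd (nat_lit 137) (.lf b136) (.lf b137)) (.nd (nat_lit 139) (.lf b138) (.lf b139)))) (.nd (nat_lit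 144) (.nd (nat_lit 142) (.nd (nat_lit 141) (.lf b140) (.lf b141)) (.nd (nat_lit 143) (.lf b142) (.lf b143))) (.nd (nat_lit 146) (.nd (nat_lit 145) (.lf b144) (.lf b145)) (.nd (nat_lit 147) (.lf b146) (.lf b147)))))) (.nd (nat_lit 163) (.nd (nat_lit 155) (.nd (nat_lit 151) (.nd (nat_lit 149) (.lf b148) (.nd (nat_lit 150) (.lf b149) (.lf b150))) (.nd (nat_lit 153) (.nd (nat_lit 152) (.lf b151) (.lf b152)) (.nd (nat_lit 154) (.lf b153) (.lf b154)))) (.nd (nat_lit 159) (.nd (nat_lit 157) (.nd (nat_lit 156) (.lf b155) (.lf b156)) (.nd (nat_lit 158) (.lf b157) (.lf b158))) (.nd (nat_lit 161) (.nd (nat_lit 160) (.lf b159) (.lf b160)) (.nd (nat_lit 162) (.lf b161) (.lf b162))))) (.nd (nat_lit 170) (.nd (nat_lit 166) (.nd (nat_lit 164) (.lf b163) (.nd (nat_lit 165) (.lf b164) (.lf b165))) (.nd (nat_lit 168) (.nd (nat_lit 167) (.lf b166) (.lf b167)) (.nd (nat_lit 169) (.lf b168) (.lf b169))))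 (.nd (nat_lit 174) (.nd (nat_lit 172) (.nd (nat_lit 171) (.lf b170) (.lf b171)) (.nd (nat_lit 173) (.lf b172) (.lf b173))) (.nd (nat_lit 176) (.nd (nat_lit 175) (.lf b174) (.lf b175)) (.nd (nat_lit 177) (.lf b176) (.lf b177))))))) (.nd (nat_lit 208) (.nd (nat_lit 193) (.nd (nat_lit 185) (.nd (nat_lit 181) (.nd (nat_lit 179) (.lf b178) (.nd (nat_lit 180) (.lf b179) (.lf b180))) (.nd (nat_lit 183) (.nd (nat_lit 182) (.lf b181) (.lf b182)) (.nd (nat_lit 184) (.lf b183) (.lf b184)))) (.nd (nat_lit 189) (.nd (nat_lit 187) (.nd (nat_lit 186) (.lf b185) (.lf b186)) (.nd (nat_lit 188) (.lf b187) (.lf b188))) (.nd (nat_lit 191) (.nd (nat_lit 190) (.lf b189) (.lf b190)) (.nd (nat_lit 192) (.lf b191) (.lf b192))))) (.nd (nat_lit 200) (.nd (nat_lit 196) (.nd (nat_lit 194) (.lf b193) (.nd (nat_lit 195) (.lf b194) (.lf b195))) (.nd (nat_lit 198) (.nd (nat_lit 197) (.lf b196) (.lf b197)) (.nd (nat_lit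 199) (.lf b198) (.lf b199)))) (.nd (nat_lit 204) (.nd (nat_lit 202) (.nd (nat_lit 201) (.lf b200) (.lf b201)) (.nd (nat_lit 203) (.lf b202) (.lf b203))) (.nd (nat_lit 206) (.nd (nat_lit 205) (.lf b204) (.lf b205)) (.nd (nat_lit 207) (.lf b206) (.lf b207)))))) (.nd (nat_lit 223) (.nd (nat_lit 215) (.nd (nat_lit 211) (.nd (nat_lit 209) (.lf b208) (.nd (nat_lit 210) (.lf b209) (.lf b210))) (.nd (nat_lit 213) (.nd (nat_lit 212) (.lf b211) (.lf b212)) (.nd (nat_lit 214) (.lf b213) (.lf b214)))) (.nd (nat_lit 219) (.nd (nat_lit 217) (.nd (nat_lit 216) (.lf b215) (.lf b216)) (.nd (nat_lit 218) (.lf b217) (.lf b218))) (.nd (nat_lit 221) (.nd (nat_lit 220) (.lf b219) (.lf b220)) (.nd (nat_lit 222) (.lf b221) (.lf b222))))) (.nd (nat_lit 230) (.nd (nat_lit 226) (.nd (nat_lit 224) (.lf b223) (.nd (nat_lit 225) (.lf b224) (.lf b225))) (.nd (nat_lit 228) (.nd (nat_lit 227) (.lf b226) (.lf b227))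 (.nd (nat_lit 229) (.lf b228) (.lf b229)))) (.nd (nat_lit 234) (.nd (nat_lit 232) (.nd (nat_lit 231) (.lf b230) (.lf b231)) (.nd (nat_lit 233) (.lf b232) (.lf b233))) (.nd (nat_lit 236) (.nd (nat_lit 235) (.lf b234) (.lf b235)) (.nd (nat_lit 237) (.lf b236) (.lf b237))))))))) (.nd (nat_lit 357) (.nd (nat_lit 297) (.nd (nat_lit 267) (.nd (nat_lit 252) (.nd (nat_lit 245) (.nd (nat_lit 241) (.nd (nat_lit 239) (.lf b238) (.nd (nat_lit 240) (.lf b239) (.lf b240))) (.nd (nat_lit 243) (.nd (nat_lit 242) (.lf b241) (.lf b242)) (.nd (nat_lit 244) (.lf b243) (.lf b244)))) (.nd (nat_lit 248) (.nd (nat_lit 246) (.lf b245) (.nd (nat_lit 247) (.lf b246) (.lf b247))) (.nd (nat_lit 250) (.nd (nat_lit 249) (.lf b248) (.lf b249)) (.nd (nat_lit 251) (.lf b250) (.lf b251))))) (.nd (nat_lit 259) (.nd (nat_lit 255) (.nd (nat_lit 253) (.lf b252) (.nd (nat_lit 254) (.lf b253) (.lf b254))) (.nd (nat_lit 257)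 (.nd (nat_lit 256) (.lf b255) (.lf b256)) (.nd (nat_lit 258) (.lf b257) (.lf b258)))) (.nd (nat_lit 263) (.nd (nat_lit 261) (.nd (nat_lit 260) (.lf b259) (.lf b260)) (.nd (nat_lit 262) (.lf b261) (.lf b262))) (.nd (nat_lit 265) (.nd (nat_lit 264) (.lf b263) (.lf b264)) (.nd (nat_lit 266) (.lf b265) (.lf b266)))))) (.nd (nat_lit 282) (.nd (nat_lit 274) (.nd (nat_lit 270) (.nd (nat_lit 268) (.lf b267) (.nd (nat_lit 269) (.lf b268) (.lf b269))) (.nd (nat_lit 272) (.nd (nat_lit 271) (.lf b270) (.lf b271)) (.nd (nat_lit 273) (.lf b272) (.lf b273)))) (.nd (nat_lit 278) (.nd (nat_lit 276) (.nd (nat_lit 275) (.lf b274) (.lf b275)) (.nd (nat_lit 277) (.lf b276) (.lf b277))) (.nd (nat_lit 280) (.nd (nat_lit 279) (.lf b278) (.lf b279)) (.nd (nat_lit 281) (.lf b280) (.lf b281))))) (.nd (nat_lit 289) (.nd (nat_lit 285) (.nd (nat_lit 283) (.lf b282) (.nd (nat_lit 284) (.lf b283) (.lf b284))) (.nd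 (nat_lit 287) (.nd (nat_lit 286) (.lf b285) (.lf b286)) (.nd (nat_lit 288) (.lf b287) (.lf b288)))) (.nd (nat_lit 293) (.nd (nat_lit 291) (.nd (nat_lit 290) (.lf b289) (.lf b290)) (.nd (nat_lit 292) (.lf b291) (.lf b292))) (.nd (nat_lit 295) (.nd (nat_lit 294) (.lf b293) (.lf b294)) (.nd (nat_lit 296) (.lf b295) (.lf b296))))))) (.nd (nat_lit 327) (.nd (nat_lit 312) (.nd (nat_lit 304) (.nd (nat_lit 300) (.nd (nat_lit 298) (.lf b297) (.nd (nat_lit 299) (.lf b298) (.lf b299))) (.nd (nat_lit 302) (.nd (nat_lit 301) (.lf b300) (.lf b301)) (.nd (nat_lit 303) (.lf b302) (.lf b303)))) (.nd (nat_lit 308) (.nd (nat_lit 306) (.nd (nat_lit 305) (.lf b304) (.lf b305)) (.nd (nat_lit 307) (.lf b306) (.lf b307))) (.nd (nat_lit 310) (.nd (nat_lit 309) (.lf b308) (.lf b309)) (.nd (nat_lit 311) (.lf b310) (.lf b311))))) (.nd (nat_lit 319) (.nd (nat_lit 315) (.nd (nat_lit 313) (.lf b312) (.nd (nat_lit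 314) (.lf b313) (.lf b314))) (.nd (nat_lit 317) (.nd (nat_lit 316) (.lf b315) (.lf b316)) (.nd (nat_lit 318) (.lf b317) (.lf b318)))) (.nd (nat_lit 323) (.nd (nat_lit 321) (.nd (nat_lit 320) (.lf b319) (.lf b320)) (.nd (nat_lit 322) (.lf b321) (.lf b322))) (.nd (nat_lit 325) (.nd (nat_lit 324) (.lf b323) (.lf b324)) (.nd (nat_lit 326) (.lf b325) (.lf b326)))))) (.nd (nat_lit 342) (.nd (nat_lit 334) (.nd (nat_lit 330) (.nd (nat_lit 328) (.lf b327) (.nd (nat_lit 329) (.lf b328) (.lf b329))) (.nd (nat_lit 332) (.nd (nat_lit 331) (.lf b330) (.lf b331)) (.nd (nat_lit 333) (.lf b332) (.lf b333)))) (.nd (nat_lit 338) (.nd (nat_lit 336) (.nd (nat_lit 335) (.lf b334) (.lf b335)) (.nd (nat_lit 337) (.lf b336) (.lf b337))) (.nd (nat_lit 340) (.nd (nat_lit 339) (.lf b338) (.lf b339)) (.nd (nat_lit 341) (.lf b340) (.lf b341))))) (.nd (nat_lit 349) (.nd (nat_lit 345) (.nd (nat_lit 343) (.lf b342)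 (.nd (nat_lit 344) (.lf b343) (.lf b344))) (.nd (nat_lit 347) (.nd (nat_lit 346) (.lf b345) (.lf b346)) (.nd (nat_lit 348) (.lf b347) (.lf b348)))) (.nd (nat_lit 353) (.nd (nat_lit 351) (.nd (nat_lit 350) (.lf b349) (.lf b350)) (.nd (nat_lit 352) (.lf b351) (.lf b352))) (.nd (nat_lit 355) (.nd (nat_lit 354) (.lf b353) (.lf b354)) (.nd (nat_lit 356) (.lf b355) (.lf b356)))))))) (.nd (nat_lit 417) (.nd (nat_lit 387) (.nd (nat_lit 372) (.nd (nat_lit 364) (.nd (nat_lit 360) (.nd (nat_lit 358) (.lf b357) (.nd (nat_lit 359) (.lf b358) (.lf b359))) (.nd (nat_lit 362) (.nd (nat_lit 361) (.lf b360) (.lf b361)) (.nd (nat_lit 363) (.lf b362) (.lf b363)))) (.nd (nat_lit 368) (.nd (nat_lit 366) (.nd (nat_lit 365) (.lf b364) (.lf b365)) (.nd (nat_lit 367) (.lf b366) (.lf b367))) (.nd (nat_lit 370) (.nd (nat_lit 369) (.lf b368) (.lf b369)) (.nd (nat_lit 371) (.lf b370) (.lf b371))))) (.nd (nat_lit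 379) (.nd (nat_lit 375) (.nd (nat_lit 373) (.lf b372) (.nd (nat_lit 374) (.lf b373) (.lf b374))) (.nd (nat_lit 377) (.nd (nat_lit 376) (.lf b375) (.lf b376)) (.nd (nat_lit 378) (.lf b377) (.lf b378)))) (.nd (nat_lit 383) (.nd (nat_lit 381) (.nd (nat_lit 380) (.lf b379) (.lf b380)) (.nd (nat_lit 382) (.lf b381) (.lf b382))) (.nd (nat_lit 385) (.nd (nat_lit 384) (.lf b383) (.lf b384)) (.nd (nat_lit 386) (.lf b385) (.lf b386)))))) (.nd (nat_lit 402) (.nd (nat_lit 394) (.nd (nat_lit 390) (.nd (nat_lit 388) (.lf b387) (.nd (nat_lit 389) (.lf b388) (.lf b389))) (.nd (nat_lit 392) (.nd (nat_lit 391) (.lf b390) (.lf b391)) (.nd (nat_lit 393) (.lf b392) (.lf b393)))) (.nd (nat_lit 398) (.nd (nat_lit 396) (.nd (nat_lit 395) (.lf b394) (.lf b395)) (.nd (nat_lit 397) (.lf b396) (.lf b397))) (.nd (nat_lit 400) (.nd (nat_lit 399) (.lf b398) (.lf b399)) (.nd (nat_lit 401) (.lf b400) (.lf b401)))))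 (.nd (nat_lit 409) (.nd (nat_lit 405) (.nd (nat_lit 403) (.lf b402) (.nd (nat_lit 404) (.lf b403) (.lf b404))) (.nd (nat_lit 407) (.nd (nat_lit 406) (.lf b405) (.lf b406)) (.nd (nat_lit 408) (.lf b407) (.lf b408)))) (.nd (nat_lit 413) (.nd (nat_lit 411) (.nd (nat_lit 410) (.lf b409) (.lf b410)) (.nd (nat_lit 412) (.lf b411) (.lf b412))) (.nd (nat_lit 415) (.nd (nat_lit 414) (.lf b413) (.lf b414)) (.nd (nat_lit 416) (.lf b415) (.lf b416))))))) (.nd (nat_lit 447) (.nd (nat_lit 432) (.nd (nat_lit 424) (.nd (nat_lit 420) (.nd (nat_lit 418) (.lf b417) (.nd (nat_lit 419) (.lf b418) (.lf b419))) (.nd (nat_lit 422) (.nd (nat_lit 421) (.lf b420) (.lf b421)) (.nd (nat_lit 423) (.lf b422) (.lf b423)))) (.nd (nat_lit 428) (.nd (nat_lit 426) (.nd (nat_lit 425) (.lf b424) (.lf b425)) (.nd (nat_lit 427) (.lf b426) (.lf b427))) (.nd (nat_lit 430) (.nd (nat_lit 429) (.lf b428) (.lf b429)) (.nd (nat_lit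 431) (.lf b430) (.lf b431))))) (.nd (nat_lit 439) (.nd (nat_lit 435) (.nd (nat_lit 433) (.lf b432) (.nd (nat_lit 434) (.lf b433) (.lf b434))) (.nd (nat_lit 437) (.nd (nat_lit 436) (.lf b435) (.lf b436)) (.nd (nat_lit 438) (.lf b437) (.lf b438)))) (.nd (nat_lit 443) (.nd (nat_lit 441) (.nd (nat_lit 440) (.lf b439) (.lf b440)) (.nd (nat_lit 442) (.lf b441) (.lf b442))) (.nd (nat_lit 445) (.nd (nat_lit 444) (.lf b443) (.lf b444)) (.nd (nat_lit 446) (.lf b445) (.lf b446)))))) (.nd (nat_lit 462) (.nd (nat_lit 454) (.nd (nat_lit 450) (.nd (nat_lit 448) (.lf b447) (.nd (nat_lit 449) (.lf b448) (.lf b449))) (.nd (nat_lit 452) (.nd (nat_lit 451) (.lf b450) (.lf b451)) (.nd (nat_lit 453) (.lf b452) (.lf b453)))) (.nd (nat_lit 458) (.nd (nat_lit 456) (.nd (nat_lit 455) (.lf b454) (.lf b455)) (.nd (nat_lit 457) (.lf b456) (.lf b457))) (.nd (nat_lit 460) (.nd (nat_lit 459) (.lf b458) (.lf b459))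 (.nd (nat_lit 461) (.lf b460) (.lf b461))))) (.nd (nat_lit 469) (.nd (nat_lit 465) (.nd (nat_lit 463) (.lf b462) (.nd (nat_lit 464) (.lf b463) (.lf b464))) (.nd (nat_lit 467) (.nd (nat_lit 466) (.lf b465) (.lf b466)) (.nd (nat_lit 468) (.lf b467) (.lf b468)))) (.nd (nat_lit 473) (.nd (nat_lit 471) (.nd (nat_lit 470) (.lf b469) (.lf b470)) (.nd (nat_lit 472) (.lf b471) (.lf b472))) (.nd (nat_lit 475) (.nd (nat_lit 474) (.lf b473) (.lf b474)) (.nd (nat_lit 476) (.lf b475) (.lf b476)))))))))) (.nd (nat_lit 716) (.nd (nat_lit 596) (.nd (nat_lit 536) (.nd (nat_lit 506) (.nd (nat_lit 491) (.nd (nat_lit 484) (.nd (nat_lit 480) (.nd (nat_lit 478) (.lf b477) (.nd (nat_lit 479) (.lf b478) (.lf b479))) (.nd (nat_lit 482) (.nd (nat_lit 481) (.lf b480) (.lf b481)) (.nd (nat_lit 483) (.lf b482) (.lf b483)))) (.nd (nat_lit 487) (.nd (nat_lit 485) (.lf b484) (.nd (nat_lit 486) (.lf b485) (.lf b486)))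 (.nd (nat_lit 489) (.nd (nat_lit 488) (.lf b487) (.lf b488)) (.nd (nat_lit 490) (.lf b489) (.lf b490))))) (.nd (nat_lit 498) (.nd (nat_lit 494) (.nd (nat_lit 492) (.lf b491) (.nd (nat_lit 493) (.lf b492) (.lf b493))) (.nd (nat_lit 496) (.nd (nat_lit 495) (.lf b494) (.lf b495)) (.nd (nat_lit 497) (.lf b496) (.lf b497)))) (.nd (nat_lit 502) (.nd (nat_lit 500) (.nd (nat_lit 499) (.lf b498) (.lf b499)) (.nd (nat_lit 501) (.lf b500) (.lf b501))) (.nd (nat_lit 504) (.nd (nat_lit 503) (.lf b502) (.lf b503)) (.nd (nat_lit 505) (.lf b504) (.lf b505)))))) (.nd (nat_lit 521) (.nd (nat_lit 513) (.nd (nat_lit 509) (.nd (nat_lit 507) (.lf b506) (.nd (nat_lit 508) (.lf b507) (.lf b508))) (.nd (nat_lit 511) (.nd (nat_lit 510) (.lf b509) (.lf b510)) (.nd (nat_lit 512) (.lf b511) (.lf b512)))) (.nd (nat_lit 517) (.nd (nat_lit 515) (.nd (nat_lit 514) (.lf b513) (.lf b514)) (.nd (nat_lit 516) (.lf b515)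 (.lf b516))) (.nd (nat_lit 519) (.nd (nat_lit 518) (.lf b517) (.lf b518)) (.nd (nat_lit 520) (.lf b519) (.lf b520))))) (.nd (nat_lit 528) (.nd (nat_lit 524) (.nd (nat_lit 522) (.lf b521) (.nd (nat_lit 523) (.lf b522) (.lf b523))) (.nd (nat_lit 526) (.nd (nat_lit 525) (.lf b524) (.lf b525)) (.nd (nat_lit 527) (.lf b526) (.lf b527)))) (.nd (nat_lit 532) (.nd (nat_lit 530) (.nd (nat_lit 529) (.lf b528) (.lf b529)) (.nd (nat_lit 531) (.lf b530) (.lf b531))) (.nd (nat_lit 534) (.nd (nat_lit 533) (.lf b532) (.lf b533)) (.nd (nat_lit 535) (.lf b534) (.lf b535))))))) (.nd (nat_lit 566) (.nd (nat_lit 551) (.nd (nat_lit 543) (.nd (nat_lit 539) (.nd (nat_lit 537) (.lf b536) (.nd (nat_lit 538) (.lf b537) (.lf b538))) (.nd (nat_lit 541) (.nd (nat_lit 540) (.lf b539) (.lf b540)) (.nd (nat_lit 542) (.lf b541) (.lf b542)))) (.nd (nat_lit 547) (.nd (nat_lit 545) (.nd (nat_lit 544) (.lf b543) (.lf b544))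 (.nd (nat_lit 546) (.lf b545) (.lf b546))) (.nd (nat_lit 549) (.nd (nat_lit 548) (.lf b547) (.lf b548)) (.nd (nat_lit 550) (.lf b549) (.lf b550))))) (.nd (nat_lit 558) (.nd (nat_lit 554) (.nd (nat_lit 552) (.lf b551) (.nd (nat_lit 553) (.lf b552) (.lf b553))) (.nd (nat_lit 556) (.nd (nat_lit 555) (.lf b554) (.lf b555)) (.nd (nat_lit 557) (.lf b556) (.lf b557)))) (.nd (nat_lit 562) (.nd (nat_lit 560) (.nd (nat_lit 559) (.lf b558) (.lf b559)) (.nd (nat_lit 561) (.lf b560) (.lf b561))) (.nd (nat_lit 564) (.nd (nat_lit 563) (.lf b562) (.lf b563)) (.nd (nat_lit 565) (.lf b564) (.lf b565)))))) (.nd (nat_lit 581) (.nd (nat_lit 573) (.nd (nat_lit 569) (.nd (nat_lit 567) (.lf b566) (.nd (nat_lit 568) (.lf b567) (.lf b568))) (.nd (nat_lit 571) (.nd (nat_lit 570) (.lf b569) (.lf b570)) (.nd (nat_lit 572) (.lf b571) (.lf b572)))) (.nd (nat_lit 577) (.nd (nat_lit 575) (.nd (nat_lit 574) (.lf b573)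 (.lf b574)) (.nd (nat_lit 576) (.lf b575) (.lf b576))) (.nd (nat_lit 579) (.nd (nat_lit 578) (.lf b577) (.lf b578)) (.nd (nat_lit 580) (.lf b579) (.lf b580))))) (.nd (nat_lit 588) (.nd (nat_lit 584) (.nd (nat_lit 582) (.lf b581) (.nd (nat_lit 583) (.lf b582) (.lf b583))) (.nd (nat_lit 586) (.nd (nat_lit 585) (.lf b584) (.lf b585)) (.nd (nat_lit 587) (.lf b586) (.lf b587)))) (.nd (nat_lit 592) (.nd (nat_lit 590) (.nd (nat_lit 589) (.lf b588) (.lf b589)) (.nd (nat_lit 591) (.lf b590) (.lf b591))) (.nd (nat_lit 594) (.nd (nat_lit 593) (.lf b592) (.lf b593)) (.nd (nat_lit 595) (.lf b594) (.lf b595)))))))) (.nd (nat_lit 656) (.nd (nat_lit 626) (.nd (nat_lit 611) (.nd (nat_lit 603) (.nd (nat_lit 599) (.nd (nat_lit 597) (.lf b596) (.nd (nat_lit 598) (.lf b597) (.lf b598))) (.nd (nat_lit 601) (.nd (nat_lit 600) (.lf b599) (.lf b600)) (.nd (nat_lit 602) (.lf b601) (.lf b602)))) (.nd (nat_lit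 607) (.nd (nat_lit 605) (.nd (nat_lit 604) (.lf b603) (.lf b604)) (.nd (nat_lit 606) (.lf b605) (.lf b606))) (.nd (nat_lit 609) (.nd (nat_lit 608) (.lf b607) (.lf b608)) (.nd (nat_lit 610) (.lf b609) (.lf b610))))) (.nd (nat_lit 618) (.nd (nat_lit 614) (.nd (nat_lit 612) (.lf b611) (.nd (nat_lit 613) (.lf b612) (.lf b613))) (.nd (nat_lit 616) (.nd (nat_lit 615) (.lf b614) (.lf b615)) (.nd (nat_lit 617) (.lf b616) (.lf b617)))) (.nd (nat_lit 622) (.nd (nat_lit 620) (.nd (nat_lit 619) (.lf b618) (.lf b619)) (.nd (nat_lit 621) (.lf b620) (.lf b621))) (.nd (nat_lit 624) (.nd (nat_lit 623) (.lf b622) (.lf b623)) (.nd (nat_lit 625) (.lf b624) (.lf b625)))))) (.nd (nat_lit 641) (.nd (nat_lit 633) (.nd (nat_lit 629) (.nd (nat_lit 627) (.lf b626) (.nd (nat_lit 628) (.lf b627) (.lf b628))) (.nd (nat_lit 631) (.nd (nat_lit 630) (.lf b629) (.lf b630)) (.nd (nat_lit 632) (.lf b631) (.lf b632))))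 (.nd (nat_lit 637) (.nd (nat_lit 635) (.nd (nat_lit 634) (.lf b633) (.lf b634)) (.nd (nat_lit 636) (.lf b635) (.lf b636))) (.nd (nat_lit 639) (.nd (nat_lit 638) (.lf b637) (.lf b638)) (.nd (nat_lit 640) (.lf b639) (.lf b640))))) (.nd (nat_lit 648) (.nd (nat_lit 644) (.nd (nat_lit 642) (.lf b641) (.nd (nat_lit 643) (.lf b642) (.lf b643))) (.nd (nat_lit 646) (.nd (nat_lit 645) (.lf b644) (.lf b645)) (.nd (nat_lit 647) (.lf b646) (.lf b647)))) (.nd (nat_lit 652) (.nd (nat_lit 650) (.nd (nat_lit 649) (.lf b648) (.lf b649)) (.nd (nat_lit 651) (.lf b650) (.lf b651))) (.nd (nat_lit 654) (.nd (nat_lit 653) (.lf b652) (.lf b653)) (.nd (nat_lit 655) (.lf b654) (.lf b655))))))) (.nd (nat_lit 686) (.nd (nat_lit 671) (.nd (nat_lit 663) (.nd (nat_lit 659) (.nd (nat_lit 657) (.lf b656) (.nd (nat_lit 658) (.lf b657) (.lf b658))) (.nd (nat_lit 661) (.nd (nat_lit 660) (.lf b659) (.lf b660)) (.nd (nat_lit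 662) (.lf b661) (.lf b662)))) (.nd (nat_lit 667) (.nd (nat_lit 665) (.nd (nat_lit 664) (.lf b663) (.lf b664)) (.nd (nat_lit 666) (.lf b665) (.lf b666))) (.nd (nat_lit 669) (.nd (nat_lit 668) (.lf b667) (.lf b668)) (.nd (nat_lit 670) (.lf b669) (.lf b670))))) (.nd (nat_lit 678) (.nd (nat_lit 674) (.nd (nat_lit 672) (.lf b671) (.nd (nat_lit 673) (.lf b672) (.lf b673))) (.nd (nat_lit 676) (.nd (nat_lit 675) (.lf b674) (.lf b675)) (.nd (nat_lit 677) (.lf b676) (.lf b677)))) (.nd (nat_lit 682) (.nd (nat_lit 680) (.nd (nat_lit 679) (.lf b678) (.lf b679)) (.nd (nat_lit 681) (.lf b680) (.lf b681))) (.nd (nat_lit 684) (.nd (nat_lit 683) (.lf b682) (.lf b683)) (.nd (nat_lit 685) (.lf b684) (.lf b685)))))) (.nd (nat_lit 701) (.nd (nat_lit 693) (.nd (nat_lit 689) (.nd (nat_lit 687) (.lf b686) (.nd (nat_lit 688) (.lf b687) (.lf b688))) (.nd (nat_lit 691) (.nd (nat_lit 690) (.lf b689) (.lf b690))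 (.nd (nat_lit 692) (.lf b691) (.lf b692)))) (.nd (nat_lit 697) (.nd (nat_lit 695) (.nd (nat_lit 694) (.lf b693) (.lf b694)) (.nd (nat_lit 696) (.lf b695) (.lf b696))) (.nd (nat_lit 699) (.nd (nat_lit 698) (.lf b697) (.lf b698)) (.nd (nat_lit 700) (.lf b699) (.lf b700))))) (.nd (nat_lit 708) (.nd (nat_lit 704) (.nd (nat_lit 702) (.lf b701) (.nd (nat_lit 703) (.lf b702) (.lf b703))) (.nd (nat_lit 706) (.nd (nat_lit 705) (.lf b704) (.lf b705)) (.nd (nat_lit 707) (.lf b706) (.lf b707)))) (.nd (nat_lit 712) (.nd (nat_lit 710) (.nd (nat_lit 709) (.lf b708) (.lf b709)) (.nd (nat_lit 711) (.lf b710) (.lf b711))) (.nd (nat_lit 714) (.nd (nat_lit 713) (.lf b712) (.lf b713)) (.nd (nat_lit 715) (.lf b714) (.lf b715))))))))) (.nd (nat_lit 835) (.nd (nat_lit 775) (.nd (nat_lit 745) (.nd (nat_lit 730) (.nd (nat_lit 723) (.nd (nat_lit 719) (.nd (nat_lit 717) (.lf b716) (.nd (nat_lit 718) (.lf b717)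 (.lf b718))) (.nd (nat_lit 721) (.nd (nat_lit 720) (.lf b719) (.lf b720)) (.nd (nat_lit 722) (.lf b721) (.lf b722)))) (.nd (nat_lit 726) (.nd (nat_lit 724) (.lf b723) (.nd (nat_lit 725) (.lf b724) (.lf b725))) (.nd (nat_lit 728) (.nd (nat_lit 727) (.lf b726) (.lf b727)) (.nd (nat_lit 729) (.lf b728) (.lf b729))))) (.nd (nat_lit 737) (.nd (nat_lit 733) (.nd (nat_lit 731) (.lf b730) (.nd (nat_lit 732) (.lf b731) (.lf b732))) (.nd (nat_lit 735) (.nd (nat_lit 734) (.lf b733) (.lf b734)) (.nd (nat_lit 736) (.lf b735) (.lf b736)))) (.nd (nat_lit 741) (.nd (nat_lit 739) (.nd (nat_lit 738) (.lf b737) (.lf b738)) (.nd (nat_lit 740) (.lf b739) (.lf b740))) (.nd (nat_lit 743) (.nd (nat_lit 742) (.lf b741) (.lf b742)) (.nd (nat_lit 744) (.lf b743) (.lf b744)))))) (.nd (nat_lit 760) (.nd (nat_lit 752) (.nd (nat_lit 748) (.nd (nat_lit 746) (.lf b745) (.nd (nat_lit 747) (.lf b746) (.lf b747))) (.nd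 (nat_lit 750) (.nd (nat_lit 749) (.lf b748) (.lf b749)) (.nd (nat_lit 751) (.lf b750) (.lf b751)))) (.nd (nat_lit 756) (.nd (nat_lit 754) (.nd (nat_lit 753) (.lf b752) (.lf b753)) (.nd (nat_lit 755) (.lf b754) (.lf b755))) (.nd (nat_lit 758) (.nd (nat_lit 757) (.lf b756) (.lf b757)) (.nd (nat_lit 759) (.lf b758) (.lf b759))))) (.nd (nat_lit 767) (.nd (nat_lit 763) (.nd (nat_lit 761) (.lf b760) (.nd (nat_lit 762) (.lf b761) (.lf b762))) (.nd (nat_lit 765) (.nd (nat_lit 764) (.lf b763) (.lf b764)) (.nd (nat_lit 766) (.lf b765) (.lf b766)))) (.nd (nat_lit 771) (.nd (nat_lit 769) (.nd (nat_lit 768) (.lf b767) (.lf b768)) (.nd (nat_lit 770) (.lf b769) (.lf b770))) (.nd (nat_lit 773) (.nd (nat_lit 772) (.lf b771) (.lf b772)) (.nd (nat_lit 774) (.lf b773) (.lf b774))))))) (.nd (nat_lit 805) (.nd (nat_lit 790) (.nd (nat_lit 782) (.nd (nat_lit 778) (.nd (nat_lit 776) (.lf b775) (.nd (nat_lit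 777) (.lf b776) (.lf b777))) (.nd (nat_lit 780) (.nd (nat_lit 779) (.lf b778) (.lf b779)) (.nd (nat_lit 781) (.lf b780) (.lf b781)))) (.nd (nat_lit 786) (.nd (nat_lit 784) (.nd (nat_lit 783) (.lf b782) (.lf b783)) (.nd (nat_lit 785) (.lf b784) (.lf b785))) (.nd (nat_lit 788) (.nd (nat_lit 787) (.lf b786) (.lf b787)) (.nd (nat_lit 789) (.lf b788) (.lf b789))))) (.nd (nat_lit 797) (.nd (nat_lit 793) (.nd (nat_lit 791) (.lf b790) (.nd (nat_lit 792) (.lf b791) (.lf b792))) (.nd (nat_lit 795) (.nd (nat_lit 794) (.lf b793) (.lf b794)) (.nd (nat_lit 796) (.lf b795) (.lf b796)))) (.nd (nat_lit 801) (.nd (nat_lit 799) (.nd (nat_lit 798) (.lf b797) (.lf b798)) (.nd (nat_lit 800) (.lf b799) (.lf b800))) (.nd (nat_lit 803) (.nd (nat_lit 802) (.lf b801) (.lf b802)) (.nd (nat_lit 804) (.lf b803) (.lf b804)))))) (.nd (nat_lit 820) (.nd (nat_lit 812) (.nd (nat_lit 808) (.nd (nat_lit 806) (.lf b805)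 (.nd (nat_lit 807) (.lf b806) (.lf b807))) (.nd (nat_lit 810) (.nd (nat_lit 809) (.lf b808) (.lf b809)) (.nd (nat_lit 811) (.lf b810) (.lf b811)))) (.nd (nat_lit 816) (.nd (nat_lit 814) (.nd (nat_lit 813) (.lf b812) (.lf b813)) (.nd (nat_lit 815) (.lf b814) (.lf b815))) (.nd (nat_lit 818) (.nd (nat_lit 817) (.lf b816) (.lf b817)) (.nd (nat_lit 819) (.lf b818) (.lf b819))))) (.nd (nat_lit 827) (.nd (nat_lit 823) (.nd (nat_lit 821) (.lf b820) (.nd (nat_lit 822) (.lf b821) (.lf b822))) (.nd (nat_lit 825) (.nd (nat_lit 824) (.lf b823) (.lf b824)) (.nd (nat_lit 826) (.lf b825) (.lf b826)))) (.nd (nat_lit 831) (.nd (nat_lit 829) (.nd (nat_lit 828) (.lf b827) (.lf b828)) (.nd (nat_lit 830) (.lf b829) (.lf b830))) (.nd (nat_lit 833) (.nd (nat_lit 832) (.lf b831) (.lf b832)) (.nd (nat_lit 834) (.lf b833) (.lf b834)))))))) (.nd (nat_lit 895) (.nd (nat_lit 865) (.nd (nat_lit 850) (.nd (nat_lit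 842) (.nd (nat_lit 838) (.nd (nat_lit 836) (.lf b835) (.nd (nat_lit 837) (.lf b836) (.lf b837))) (.nd (nat_lit 840) (.nd (nat_lit 839) (.lf b838) (.lf b839)) (.nd (nat_lit 841) (.lf b840) (.lf b841)))) (.nd (nat_lit 846) (.nd (nat_lit 844) (.nd (nat_lit 843) (.lf b842) (.lf b843)) (.nd (nat_lit 845) (.lf b844) (.lf b845))) (.nd (nat_lit 848) (.nd (nat_lit 847) (.lf b846) (.lf b847)) (.nd (nat_lit 849) (.lf b848) (.lf b849))))) (.nd (nat_lit 857) (.nd (nat_lit 853) (.nd (nat_lit 851) (.lf b850) (.nd (nat_lit 852) (.lf b851) (.lf b852))) (.nd (nat_lit 855) (.nd (nat_lit 854) (.lf b853) (.lf b854)) (.nd (nat_lit 856) (.lf b855) (.lf b856)))) (.nd (nat_lit 861) (.nd (nat_lit 859) (.nd (nat_lit 858) (.lf b857) (.lf b858)) (.nd (nat_lit 860) (.lf b859) (.lf b860))) (.nd (nat_lit 863) (.nd (nat_lit 862) (.lf b861) (.lf b862)) (.nd (nat_lit 864) (.lf b863) (.lf b864)))))) (.nd (nat_lit 880)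 (.nd (nat_lit 872) (.nd (nat_lit 868) (.nd (nat_lit 866) (.lf b865) (.nd (nat_lit 867) (.lf b866) (.lf b867))) (.nd (nat_lit 870) (.nd (nat_lit 869) (.lf b868) (.lf b869)) (.nd (nat_lit 871) (.lf b870) (.lf b871)))) (.nd (nat_lit 876) (.nd (nat_lit 874) (.nd (nat_lit 873) (.lf b872) (.lf b873)) (.nd (nat_lit 875) (.lf b874) (.lf b875))) (.nd (nat_lit 878) (.nd (nat_lit 877) (.lf b876) (.lf b877)) (.nd (nat_lit 879) (.lf b878) (.lf b879))))) (.nd (nat_lit 887) (.nd (nat_lit 883) (.nd (nat_lit 881) (.lf b880) (.nd (nat_lit 882) (.lf b881) (.lf b882))) (.nd (nat_lit 885) (.nd (nat_lit 884) (.lf b883) (.lf b884)) (.nd (nat_lit 886) (.lf b885) (.lf b886)))) (.nd (nat_lit 891) (.nd (nat_lit 889) (.nd (nat_lit 888) (.lf b887) (.lf b888)) (.nd (nat_lit 890) (.lf b889) (.lf b890))) (.nd (nat_lit 893) (.nd (nat_lit 892) (.lf b891) (.lf b892)) (.nd (nat_lit 894) (.lf b893) (.lf b894))))))) (.nd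 (nat_lit 925) (.nd (nat_lit 910) (.nd (nat_lit 902) (.nd (nat_lit 898) (.nd (nat_lit 896) (.lf b895) (.nd (nat_lit 897) (.lf b896) (.lf b897))) (.nd (nat_lit 900) (.nd (nat_lit 899) (.lf b898) (.lf b899)) (.nd (nat_lit 901) (.lf b900) (.lf b901)))) (.nd (nat_lit 906) (.nd (nat_lit 904) (.nd (nat_lit 903) (.lf b902) (.lf b903)) (.nd (nat_lit 905) (.lf b904) (.lf b905))) (.nd (nat_lit 908) (.nd (nat_lit 907) (.lf b906) (.lf b907)) (.nd (nat_lit 909) (.lf b908) (.lf b909))))) (.nd (nat_lit 917) (.nd (nat_lit 913) (.nd (nat_lit 911) (.lf b910) (.nd (nat_lit 912) (.lf b911) (.lf b912))) (.nd (nat_lit 915) (.nd (nat_lit 914) (.lf b913) (.lf b914)) (.nd (nat_lit 916) (.lf b915) (.lf b916)))) (.nd (nat_lit 921) (.nd (nat_lit 919) (.nd (nat_lit 918) (.lf b917) (.lf b918)) (.nd (nat_lit 920) (.lf b919) (.lf b920))) (.nd (nat_lit 923) (.nd (nat_lit 922) (.lf b921) (.lf b922)) (.nd (nat_lit 924)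 (.lf b923) (.lf b924)))))) (.nd (nat_lit 940) (.nd (nat_lit 932) (.nd (nat_lit 928) (.nd (nat_lit 926) (.lf b925) (.nd (nat_lit 927) (.lf b926) (.lf b927))) (.nd (nat_lit 930) (.nd (nat_lit 929) (.lf b928) (.lf b929)) (.nd (nat_lit 931) (.lf b930) (.lf b931)))) (.nd (nat_lit 936) (.nd (nat_lit 934) (.nd (nat_lit 933) (.lf b932) (.lf b933)) (.nd (nat_lit 935) (.lf b934) (.lf b935))) (.nd (nat_lit 938) (.nd (nat_lit 937) (.lf b936) (.lf b937)) (.nd (nat_lit 939) (.lf b938) (.lf b939))))) (.nd (nat_lit 947) (.nd (nat_lit 943) (.nd (nat_lit 941) (.lf b940) (.nd (nat_lit 942) (.lf b941) (.lf b942))) (.nd (nat_lit 945) (.nd (nat_lit 944) (.lf b943) (.lf b944)) (.nd (nat_lit 946) (.lf b945) (.lf b946)))) (.nd (nat_lit 951) (.nd (nat_lit 949) (.nd (nat_lit 948) (.lf b947) (.lf b948)) (.nd (nat_lit 950) (.lf b949) (.lf b950))) (.nd (nat_lit 953) (.nd (nat_lit 952) (.lf b951) (.lf b952)) (.nd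 (nat_lit 954) (.lf b953) (.lf b0)))))))))))
noncomputable def dat (x p : Nat) : Nat := (bAll.get x).get p

end Pool.Agent.IvT
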